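import Pool.Agent.H99.Final

/-!
The characterisation of the finite structures that are pp-interconstructible with a permutation
group or with `P1`. The definitions are in `Pool/Agent/H99/PPDefs.lean`.
-/

set_option autoImplicit false

namespace Pool.Agent.Results.MP_f310dc_lc.PermGroupCharacterization

open Pool.Agent.H99

/-- A finite structure `A` satisfies both (M) and (S) if and only if `A` is pp-interconstructible
with some permutation group (a finite group `G` acting on a finite set `X`) or with `P1`. -/
theorem result {σ : Sig} (A : Str σ) :
    (CondM A ∧ CondS A) ↔
      ((∃ (G X : Type) (_ : Group G) (_ : Finite G) (_ : Finite X) (_ : MulAction G X),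
          PPInterconstructible A (permStr G X)) ∨
        PPInterconstructible A P1) :=
  main A

end Pool.Agent.Results.MP_f310dc_lc.PermGroupCharacterization
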